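import Pool.Agent.Helper67.LPath.Sub

/-!
Piece L1b (MP_fc92c5): a path of the subdivided graph between two core vertices which
avoids the tails comes from a core path.
-/

namespace Pool.Agent.Helper79.LPath

open Pool.Agent.Helper67.LPath

theorem pt_zero (W : ℕ → ℕ → ℕ) (a b : ℕ) : pt W a b 0 = (a, a, 0) := by
  unfold pt
  rw [if_pos rfl]

theorem pt_top {W : ℕ → ℕ → ℕ} {a b s : ℕ} (h0 : s ≠ 0) (h : s = W a b) :
    pt W a b s = (b, b, 0) := by
  unfold pt
  rw [if_neg h0, if_pos h]

theorem pt_int {W : ℕ → ℕ → ℕ} {a b s : ℕ} (h0 : s ≠ 0) (h : s ≠ W a b) :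
    pt W a b s = (a, b, s) := by
  unfold pt
  rw [if_neg h0, if_neg h]

theorem adj_interior {W : ℕ → ℕ → ℕ} {tips : List ℕ} {T a b s : ℕ} {z : Pt} (hab : a < b)
    (h : SAdj W tips T (a, b, s) z) : z = pt W a b (s + 1) ∨ z = pt W a b (s - 1) := by
  rcases h with h | h
  · rcases h with ⟨a', b', s', hab', hs', he, rfl⟩ | ⟨t, ht, s', hs', he, rfl⟩
    · by_cases h0 : s' = 0
      · subst h0
        rw [pt_zero] at he
        simp only [Prod.mk.injEq] at he
        omega
      · rw [pt_int h0 (by omega)] at he
        simp only [Prod.mk.injEq] at he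
        obtain ⟨rfl, rfl, rfl⟩ := he
        exact Or.inl rfl
    · simp only [Prod.mk.injEq] at he
      omega
  · rcases h with ⟨a', b', s', hab', hs', rfl, he⟩ | ⟨t, ht, s', hs', rfl, he⟩
    · by_cases h0 : s' + 1 = W a' b'
      · rw [pt_top (by omega) h0] at he
        simp only [Prod.mk.injEq] at he
        omega
      · rw [pt_int (by omega) h0] at he
        simp only [Prod.mk.injEq] at he
        obtain ⟨rfl, rfl, rfl⟩ := he
        exact Or.inr rfl
    · simp only [Prod.mk.injEq] at he
      omega

theorem run_up {W : ℕ → ℕ → ℕ} {tips : List ℕ} {T a b : ℕ} (hab : a < b) :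
    ∀ (k s : ℕ) (rest : List Pt), s + k + 1 = W a b →
      (pt W a b s :: pt W a b (s + 1) :: rest).IsChain (SAdj W tips T) →
      (pt W a b s :: pt W a b (s + 1) :: rest).Nodup →
      (∃ v, (pt W a b s :: pt W a b (s + 1) :: rest).getLast? = some (v, v, 0)) →
      ∃ pre M', pt W a b s :: pt W a b (s + 1) :: rest = pre ++ ((b, b, 0) :: M') ∧
        pre.length = k + 1 := by
  intro k
  induction k with
  | zero =>
    intro s rest hk _ _ _
    refine ⟨[pt W a b s], rest, ?_, rfl⟩
    rw [pt_top (s := s + 1) (by omega) (by omega)]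
    rfl
  | succ k ih =>
    intro s rest hk hc hn hl
    have hint : pt W a b (s + 1) = (a, b, s + 1) := pt_int (by omega) (by omega)
    cases rest with
    | nil =>
      exfalso
      obtain ⟨v, hv⟩ := hl
      rw [hint] at hv
      simp at hv
    | cons z rest =>
      rw [List.isChain_cons_cons, List.isChain_cons_cons] at hc
      obtain ⟨h1, h2, h3⟩ := hc
      have hz := adj_interior hab (hint ▸ h2)
      rcases hz with rfl | rfl
      · obtain ⟨v, hv⟩ := hl
        rw [List.getLast?_cons_cons] at hv
        obtain ⟨pre, M', he, hlen⟩ := ih (s + 1) rest (by omega)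
          (List.isChain_cons_cons.2 ⟨h2, h3⟩) hn.of_cons ⟨v, hv⟩
        refine ⟨pt W a b s :: pre, M', ?_, ?_⟩
        · rw [he]
          rfl
        · rw [List.length_cons, hlen]
      · exfalso
        rw [Nat.add_sub_cancel] at hn
        simp at hn

theorem run_down {W : ℕ → ℕ → ℕ} {tips : List ℕ} {T a b : ℕ} (hab : a < b) :
    ∀ (s : ℕ) (rest : List Pt), s + 1 ≤ W a b →
      (pt W a b (s + 1) :: pt W a b s :: rest).IsChain (SAdj W tips T) →
      (pt W a b (s + 1) :: pt W a b s :: rest).Nodup →
      (∃ v, (pt W a b (s + 1) :: pt W a b s :: rest).getLast? = some (v, v, 0)) →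
      ∃ pre M', pt W a b (s + 1) :: pt W a b s :: rest = pre ++ ((a, a, 0) :: M') ∧
        pre.length = s + 1 := by
  intro s
  induction s with
  | zero =>
    intro rest _ _ _ _
    refine ⟨[pt W a b (0 + 1)], rest, ?_, rfl⟩
    rw [pt_zero]
    rfl
  | succ s ih =>
    intro rest hk hc hn hl
    have hint : pt W a b (s + 1) = (a, b, s + 1) := pt_int (by omega) (by omega)
    cases rest with
    | nil =>
      exfalso
      obtain ⟨v, hv⟩ := hl
      rw [hint] at hv
      simp at hv
    | cons z rest =>
      rw [List.isChain_cons_cons, List.isChain_cons_cons] at hc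
      obtain ⟨h1, h2, h3⟩ := hc
      have hz := adj_interior hab (hint ▸ h2)
      rcases hz with rfl | rfl
      · exfalso
        simp at hn
      · rw [Nat.add_sub_cancel] at *
        obtain ⟨v, hv⟩ := hl
        rw [List.getLast?_cons_cons] at hv
        obtain ⟨pre, M', he, hlen⟩ := ih rest (by omega)
          (List.isChain_cons_cons.2 ⟨h2, h3⟩) hn.of_cons ⟨v, hv⟩
        refine ⟨pt W a b (s + 1 + 1) :: pre, M', ?_, ?_⟩
        · rw [he]
          rfl
        · rw [List.length_cons, hlen]

theorem first_edge {n : ℕ} {W : ℕ → ℕ → ℕ} (hW : Core n W) {tips : List ℕ} {T u : ℕ}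
    {x : Pt} {rest : List Pt}
    (hc : ((u, u, 0) :: x :: rest : List Pt).IsChain (SAdj W tips T))
    (hn : ((u, u, 0) :: x :: rest : List Pt).Nodup)
    (hl : ∃ v, ((u, u, 0) :: x :: rest : List Pt).getLast? = some (v, v, 0))
    (hx : ¬ (x.1 = x.2.1 ∧ 1 ≤ x.2.2)) :
    ∃ w pre M', 0 < W u w ∧ ((u, u, 0) :: x :: rest : List Pt) = pre ++ ((w, w, 0) :: M') ∧
      pre.length = W u w := by
  have hadj := (List.isChain_cons_cons.1 hc).1
  rcases hadj with h | h
  · rcases h with ⟨a, b, s, hab, hs, he, rfl⟩ | ⟨t, ht, s, hs, he, rfl⟩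
    · by_cases h0 : s = 0
      · subst h0
        have he' := he
        rw [pt_zero] at he'
        simp only [Prod.mk.injEq, and_true, and_self] at he'
        subst he'
        rw [he] at hc hn hl ⊢
        obtain ⟨pre, M', h1, h2⟩ := run_up hab (W u b - 1) 0 rest (by omega) hc hn hl
        exact ⟨b, pre, M', by omega, h1, by omega⟩
      · rw [pt_int h0 (by omega)] at he
        simp only [Prod.mk.injEq] at he
        omega
    · exfalso
      apply hx
      simp
  · rcases h with ⟨a, b, s, hab, hs, rfl, he⟩ | ⟨t, ht, s, hs, rfl, he⟩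
    · by_cases h0 : s + 1 = W a b
      · have he' := he
        rw [pt_top (by omega) h0] at he'
        simp only [Prod.mk.injEq, and_true, and_self] at he'
        subst he'
        rw [he] at hc hn hl ⊢
        obtain ⟨pre, M', h1, h2⟩ := run_down hab s rest (by omega) hc hn hl
        exact ⟨a, pre, M', by rw [hW.symm]; omega, h1, by rw [hW.symm]; omega⟩
      · rw [pt_int (by omega) h0] at he
        simp only [Prod.mk.injEq] at he
        omega
    · simp only [Prod.mk.injEq] at he
      omega

theorem core_projection_aux (n : ℕ) (W : ℕ → ℕ → ℕ) (hW : Core n W) (tips : List ℕ) (T : ℕ)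
    (N : ℕ) : ∀ (M : List Pt) (u v : ℕ), M.length = N → M.Nodup →
    M.IsChain (SAdj W tips T) → M.head? = some (u, u, 0) → M.getLast? = some (v, v, 0) →
    (∀ x ∈ M, ¬ (x.1 = x.2.1 ∧ 1 ≤ x.2.2)) →
    ∃ l : List ℕ, CPath W l ∧ l.head? = some u ∧ l.getLast? = some v ∧
      M.length = wt W l + 1 ∧ ∀ w ∈ l, ((w, w, 0) : Pt) ∈ M := by
  induction N using Nat.strong_induction_on with
  | _ N ih =>
    intro M u v hN hn hc hh hl hnt
    cases M with
    | nil => simp at hh
    | cons y M =>
      simp only [List.head?_cons, Option.some.injEq] at hh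
      subst hh
      cases M with
      | nil =>
        simp only [List.getLast?_singleton, Option.some.injEq, Prod.mk.injEq, and_true,
          and_self] at hl
        subst hl
        exact ⟨[u], ⟨List.nodup_singleton _, List.isChain_singleton _⟩, rfl, rfl, rfl, by simp⟩
      | cons x rest =>
        obtain ⟨w, pre, M', hw, he, hlen⟩ := first_edge hW hc hn ⟨v, hl⟩ (hnt x (by simp))
        rw [he] at hn hc hl hnt hN ⊢
        have hpre : pre ≠ [] := by
          rintro rfl
          simp at hlen
          omega
        obtain ⟨l, ⟨hl1, hl2⟩, hl3, hl4, hl5, hl6⟩ := ih ((w, w, 0) :: M').length (by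
            rw [← hN, List.length_append]
            have := List.length_pos_iff.2 hpre
            omega) ((w, w, 0) :: M') w v rfl
          (List.Nodup.of_append_right hn) (List.IsChain.right_of_append hc) rfl (by
            rw [← hl, List.getLast?_append,
              List.getLast?_eq_some_getLast (List.cons_ne_nil _ _)]
            rfl) (fun x hx => hnt x (List.mem_append_right _ hx))
        have hu : ((u, u, 0) : Pt) ∈ pre := by
          cases pre with
          | nil => exact absurd rfl hpre
          | cons z pre =>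
            rw [List.cons_append, List.cons.injEq] at he
            rw [he.1]
            exact List.mem_cons_self
        have hu' : ((u, u, 0) : Pt) ∉ ((w, w, 0) :: M' : List Pt) := fun h =>
          (List.disjoint_of_nodup_append hn) hu h
        cases l with
        | nil => simp at hl3
        | cons w' l =>
          simp only [List.head?_cons, Option.some.injEq] at hl3
          subst hl3
          refine ⟨u :: w' :: l, ⟨?_, ?_⟩, rfl, ?_, ?_, ?_⟩
          · rw [List.nodup_cons]
            exact ⟨fun h => hu' (hl6 u h), hl1⟩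
          · rw [List.isChain_cons_cons]
            exact ⟨hw, hl2⟩
          · rw [List.getLast?_cons_cons]
            exact hl4
          · rw [List.length_append, hl5, hlen]
            simp only [wt]
            omega
          · intro x hx
            rw [List.mem_cons] at hx
            rcases hx with rfl | hx
            · exact List.mem_append_left _ hu
            · exact List.mem_append_right _ (hl6 x hx)

/-- L1b: a path of the subdivided graph between core vertices, without tail vertices,
comes from a core path. -/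
theorem core_projection (n : ℕ) (W : ℕ → ℕ → ℕ) (hW : Core n W) (tips : List ℕ) (T : ℕ)
    (M : List Pt) (u v : ℕ) (hM : IsPathL (G0 W tips T) M)
    (hh : M.head? = some (u, u, 0)) (hl : M.getLast? = some (v, v, 0))
    (hnt : ∀ x ∈ M, ¬ (x.1 = x.2.1 ∧ 1 ≤ x.2.2)) :
    ∃ l : List ℕ, CPath W l ∧ l.head? = some u ∧ l.getLast? = some v ∧
      M.length = wt W l + 1 := by
  obtain ⟨l, h1, h2, h3, h4, -⟩ := core_projection_aux n W hW tips T M.length M u v rfl
    hM.2.1 hM.2.2 hh hl hnt
  exact ⟨l, h1, h2, h3, h4⟩

end Pool.Agent.Helper79.LPath
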